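import Pool.Agent.H525.SH.Stm

set_option autoImplicit false

/-! # The sum of the lattice errors (helper996, task SH/ERR of helper525) -/

namespace Pool.Agent.H996.SH

open Finset Filter

theorem prod_primeFactors (T : Finset ℕ) (hT : ∀ p ∈ T, p.Prime) : (∏ p ∈ T, p).primeFactors = T :=
  Nat.primeFactors_prod hT

theorem pow_card_le (d : ℕ) (ε : ℝ) (hε : 0 < ε) : ∃ A : ℝ, 1 ≤ A ∧ ∀ T : Finset ℕ, (∀ p ∈ T, p.Prime) →
    ((2 : ℝ) ^ d) ^ T.card ≤ A * ((∏ p ∈ T, p : ℕ) : ℝ) ^ ε := by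
  classical
  set N : ℕ := ⌈((2 : ℝ) ^ d) ^ (1 / ε)⌉₊ with hN
  have h2 : (1 : ℝ) ≤ (2 : ℝ) ^ d := one_le_pow₀ (by norm_num)
  refine ⟨((2 : ℝ) ^ d) ^ N, one_le_pow₀ h2, ?_⟩
  intro T hT
  have h1 : T.card = (T.filter (fun p => p < N)).card + (T.filter (fun p => ¬ p < N)).card :=
    (Finset.card_filter_add_card_filter_not (fun p => p < N)).symm
  have h3 : (T.filter (fun p => p < N)).card ≤ N := by
    have h4 : T.filter (fun p => p < N) ⊆ range N := by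
      intro p hp
      rw [mem_filter] at hp
      exact mem_range.2 hp.2
    have h5 := card_le_card h4
    rwa [card_range] at h5
  have h4 : ((2 : ℝ) ^ d) ^ (T.filter (fun p => ¬ p < N)).card ≤ ∏ p ∈ T.filter (fun p => ¬ p < N), (p : ℝ) ^ ε := by
    rw [← prod_const]
    apply Finset.prod_le_prod
    · intro p _
      positivity
    · intro p hp
      rw [mem_filter, not_lt] at hp
      have h5 : ((2 : ℝ) ^ d) ^ (1 / ε) ≤ (p : ℝ) := by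
        calc ((2 : ℝ) ^ d) ^ (1 / ε) ≤ (N : ℝ) := Nat.le_ceil _
          _ ≤ (p : ℝ) := by exact_mod_cast hp.2
      calc (2 : ℝ) ^ d = (((2 : ℝ) ^ d) ^ (1 / ε)) ^ ε := by
            rw [← Real.rpow_mul (by positivity), one_div_mul_cancel hε.ne', Real.rpow_one]
        _ ≤ (p : ℝ) ^ ε := Real.rpow_le_rpow (by positivity) h5 hε.le
  have h5 : ∏ p ∈ T.filter (fun p => ¬ p < N), (p : ℝ) ^ ε ≤ ∏ p ∈ T, (p : ℝ) ^ ε := by
    have h7 : (1 : ℝ) ≤ ∏ p ∈ T.filter (fun p => p < N), (p : ℝ) ^ ε := by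
      apply Finset.prod_induction _ (fun x => (1 : ℝ) ≤ x) (fun a b ha hb => one_le_mul_of_one_le_of_one_le ha hb) le_rfl
      intro p hp
      rw [mem_filter] at hp
      apply Real.one_le_rpow _ hε.le
      exact_mod_cast (hT p hp.1).one_le
    rw [← Finset.prod_filter_mul_prod_filter_not T (fun p => p < N)]
    apply le_mul_of_one_le_left _ h7
    exact Finset.prod_nonneg fun p _ => by positivity
  have h6 : ∏ p ∈ T, (p : ℝ) ^ ε = ((∏ p ∈ T, p : ℕ) : ℝ) ^ ε := by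
    push_cast
    rw [Real.finsetProd_rpow _ _ (fun p _ => by positivity)]
  rw [h1, pow_add]
  calc ((2 : ℝ) ^ d) ^ (T.filter (fun p => p < N)).card * ((2 : ℝ) ^ d) ^ (T.filter (fun p => ¬ p < N)).card ≤
        ((2 : ℝ) ^ d) ^ N * ∏ p ∈ T, (p : ℝ) ^ ε := by
        apply mul_le_mul (pow_le_pow_right₀ h2 h3) (h4.trans h5) (by positivity) (by positivity)
    _ = _ := by rw [h6]

theorem sum_le_Icc (f : ℕ → ℝ) (hf : ∀ n, 0 ≤ f n) (𝒯 : Finset (Finset ℕ)) (X : ℕ)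
    (h : ∀ T ∈ 𝒯, (∀ p ∈ T, p.Prime) ∧ ∏ p ∈ T, p ≤ X) :
    ∑ T ∈ 𝒯, f (∏ p ∈ T, p) ≤ ∑ D ∈ Icc 1 X, f D := by
  classical
  have h1 : ∑ T ∈ 𝒯, f (∏ p ∈ T, p) = ∑ D ∈ 𝒯.image (fun T => ∏ p ∈ T, p), f D := by
    rw [Finset.sum_image]
    intro T hT T' hT' hTT
    have h2 := congrArg Nat.primeFactors hTT
    simp only at h2
    rwa [prod_primeFactors T (h T hT).1, prod_primeFactors T' (h T' hT').1] at h2
  rw [h1]
  apply Finset.sum_le_sum_of_subset_of_nonneg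
  · intro D hD
    rw [mem_image] at hD
    obtain ⟨T, hT, rfl⟩ := hD
    rw [mem_Icc]
    exact ⟨Nat.pos_of_ne_zero (Finset.prod_ne_zero_iff.2 fun p hp => ((h T hT).1 p hp).ne_zero), (h T hT).2⟩
  · intro D _ _
    exact hf D

theorem term_le (d W D : ℕ) (σ : ℝ) (hd : 1 ≤ d) (hW : 1 ≤ W) (hD : 1 ≤ D) 
    (hDY : (D : ℝ) ≤ ((W ^ d : ℕ) : ℝ) ^ σ) :
    ((W : ℝ) / (D : ℝ) ^ ((1 : ℝ) / d)) ^ (d - 1) ≤
      ((W ^ d : ℕ) : ℝ) ^ (1 - (1 - σ) / d) * (1 / (D : ℝ)) := by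
  have hWr : (1 : ℝ) ≤ W := by exact_mod_cast hW
  have hDr : (1 : ℝ) ≤ D := by exact_mod_cast hD
  have hdr : (1 : ℝ) ≤ d := by exact_mod_cast hd
  have hW0 : (0 : ℝ) < W := by linarith
  have hD0 : (0 : ℝ) < D := by linarith
  have hY : ((W ^ d : ℕ) : ℝ) = (W : ℝ) ^ (d : ℝ) := by
    push_cast
    rw [Real.rpow_natCast]
  have hd1 : ((d - 1 : ℕ) : ℝ) = d - 1 := by
    rw [Nat.cast_sub hd]; simp
  have e1 : ((W : ℝ) / (D : ℝ) ^ ((1 : ℝ) / d)) ^ (d - 1) = (W : ℝ) ^ ((d : ℝ) - 1) * ((D : ℝ) ^ ((1 : ℝ) / d) * (1 / D)) := by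
    rw [← Real.rpow_natCast, hd1, Real.div_rpow hW0.le (by positivity), ← Real.rpow_mul hD0.le, div_eq_mul_inv,
      ← Real.rpow_neg hD0.le]
    congr 1
    rw [one_div (D : ℝ), ← Real.rpow_neg_one (D : ℝ), ← Real.rpow_add hD0]
    congr 1
    field_simp
    ring
  have e2 : (D : ℝ) ^ ((1 : ℝ) / d) ≤ (W : ℝ) ^ σ := by
    calc (D : ℝ) ^ ((1 : ℝ) / d) ≤ (((W ^ d : ℕ) : ℝ) ^ σ) ^ ((1 : ℝ) / d) :=
          Real.rpow_le_rpow hD0.le hDY (by positivity)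
      _ = (W : ℝ) ^ σ := by
          rw [hY, ← Real.rpow_mul hW0.le, ← Real.rpow_mul hW0.le]
          congr 1
          field_simp
  rw [e1, hY, ← Real.rpow_mul hW0.le]
  calc (W : ℝ) ^ ((d : ℝ) - 1) * ((D : ℝ) ^ ((1 : ℝ) / d) * (1 / D)) ≤ (W : ℝ) ^ ((d : ℝ) - 1) * ((W : ℝ) ^ σ * (1 / D)) := by
        gcongr
    _ = (W : ℝ) ^ ((d : ℝ) * (1 - (1 - σ) / d)) * (1 / (D : ℝ)) := by
        rw [← mul_assoc, ← Real.rpow_add hW0]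
        congr 2
        field_simp
        ring

theorem t_ERR : Pool.Agent.H525.SH.S_ERR := by
  intro d C σ hd hC hσ0 hσ1
  have hdr : (1 : ℝ) ≤ d := by exact_mod_cast hd
  have hd0 : (0 : ℝ) < d := by linarith
  set ρ : ℝ := (1 - σ) / d with hρ
  have hρ0 : 0 < ρ := div_pos (by linarith) hd0
  have hρ1 : ρ ≤ 1 - σ := div_le_self (by linarith) hdr
  obtain ⟨A, hA, hcard⟩ := pow_card_le d (ρ / 4) (by positivity)
  -- the eventual inequality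
  have hlim : Tendsto (fun Y : ℝ => (2 + Real.log Y) / Y ^ (ρ / 2)) atTop (nhds 0) := by
    have t1 : Tendsto (fun Y : ℝ => Real.log Y / Y ^ (ρ / 2)) atTop (nhds 0) :=
      (isLittleO_log_rpow_atTop (show 0 < ρ / 2 by positivity)).tendsto_div_nhds_zero
    have t2 : Tendsto (fun Y : ℝ => 2 / Y ^ (ρ / 2)) atTop (nhds 0) :=
      (tendsto_rpow_atTop (show 0 < ρ / 2 by positivity)).const_div_atTop 2
    have t3 := t2.add t1
    rw [add_zero] at t3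
    refine t3.congr fun Y => ?_
    rw [← add_div]
  have hev : ∀ᶠ Y : ℝ in atTop, C * A * (2 + Real.log Y) ≤ Y ^ (ρ / 2) := by
    have hCA : 0 < C * A + 1 := by positivity
    filter_upwards [hlim.eventually_lt_const (show (0 : ℝ) < 1 / (C * A + 1) by positivity), eventually_ge_atTop (1 : ℝ)] with Y h1 h2
    have h3 : 0 < Y ^ (ρ / 2) := Real.rpow_pos_of_pos (by linarith) _
    rw [div_lt_div_iff₀ h3 hCA, one_mul] at h1
    have h4 : 0 ≤ Real.log Y := Real.log_nonneg h2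
    nlinarith
  have hWt : Tendsto (fun W : ℕ => ((W ^ d : ℕ) : ℝ)) atTop atTop :=
    tendsto_natCast_atTop_atTop.comp (tendsto_pow_atTop (by omega))
  obtain ⟨W0, hW0⟩ := eventually_atTop.1 (hWt.eventually hev)
  refine ⟨ρ / 4, by positivity, max W0 1, ?_⟩
  intro W hW 𝒯 h𝒯
  have hW1 : 1 ≤ W := le_trans (le_max_right _ _) hW
  have hmain := hW0 W (le_trans (le_max_left _ _) hW)
  set Y : ℝ := ((W ^ d : ℕ) : ℝ) with hY
  have hY1 : 1 ≤ Y := by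
    rw [hY]
    exact_mod_cast Nat.one_le_pow _ _ hW1
  have hY0 : 0 < Y := by linarith
  have hlogY : 0 ≤ Real.log Y := Real.log_nonneg hY1
  set f : ℕ → ℝ := fun D => C * A * Y ^ (ρ / 4) * (Y ^ (1 - ρ) * (1 / (D : ℝ)) + 1) with hf
  have hf0 : ∀ n, 0 ≤ f n := by
    intro n
    rw [hf]
    positivity
  have hX : ∀ T ∈ 𝒯, (∀ p ∈ T, p.Prime) ∧ ∏ p ∈ T, p ≤ ⌊Y ^ σ⌋₊ := fun T hT =>
    ⟨(h𝒯 T hT).1, Nat.le_floor (h𝒯 T hT).2⟩
  have hterm : ∀ T ∈ 𝒯, ((2 : ℝ) ^ d) ^ T.card *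
      (C * (((W : ℝ) / ((∏ p ∈ T, p : ℕ) : ℝ) ^ ((1 : ℝ) / d)) ^ (d - 1) + 1)) ≤ f (∏ p ∈ T, p) := by
    intro T hT
    have hD1 : 1 ≤ ∏ p ∈ T, p := Nat.pos_of_ne_zero (Finset.prod_ne_zero_iff.2 fun p hp => ((h𝒯 T hT).1 p hp).ne_zero)
    have h2 := term_le d W (∏ p ∈ T, p) σ hd hW1 hD1 (h𝒯 T hT).2
    have h3 := hcard T (h𝒯 T hT).1
    have hD1r : (1 : ℝ) ≤ ((∏ p ∈ T, p : ℕ) : ℝ) := by exact_mod_cast hD1
    have h4 : ((∏ p ∈ T, p : ℕ) : ℝ) ^ (ρ / 4) ≤ Y ^ (ρ / 4) := by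
      apply Real.rpow_le_rpow (by linarith) _ (by positivity)
      refine (h𝒯 T hT).2.trans ?_
      calc Y ^ σ ≤ Y ^ (1 : ℝ) := Real.rpow_le_rpow_of_exponent_le hY1 hσ1.le
        _ = Y := Real.rpow_one _
    calc ((2 : ℝ) ^ d) ^ T.card * (C * (((W : ℝ) / ((∏ p ∈ T, p : ℕ) : ℝ) ^ ((1 : ℝ) / d)) ^ (d - 1) + 1)) ≤
          (A * Y ^ (ρ / 4)) * (C * (Y ^ (1 - ρ) * (1 / ((∏ p ∈ T, p : ℕ) : ℝ)) + 1)) := by
          apply mul_le_mul (h3.trans (by gcongr)) (by gcongr) (by positivity) (by positivity)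
      _ = f (∏ p ∈ T, p) := by rw [hf]; ring
  refine (Finset.sum_le_sum hterm).trans ((sum_le_Icc f hf0 𝒯 ⌊Y ^ σ⌋₊ hX).trans ?_)
  have hYσ : 1 ≤ Y ^ σ := Real.one_le_rpow hY1 hσ0.le
  have hfl : (⌊Y ^ σ⌋₊ : ℝ) ≤ Y ^ σ := Nat.floor_le (by positivity)
  have hfl1 : 1 ≤ ⌊Y ^ σ⌋₊ := Nat.le_floor (by simpa using hYσ)
  have hharm : ∑ D ∈ Icc 1 ⌊Y ^ σ⌋₊, 1 / (D : ℝ) ≤ 1 + Real.log Y := by
    have h5 := harmonic_le_one_add_log ⌊Y ^ σ⌋₊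
    have h6 : ((harmonic ⌊Y ^ σ⌋₊ : ℚ) : ℝ) = ∑ D ∈ Icc 1 ⌊Y ^ σ⌋₊, 1 / (D : ℝ) := by
      rw [harmonic_eq_sum_Icc]
      push_cast
      simp only [one_div]
    rw [h6] at h5
    refine h5.trans ?_
    have h7 : Real.log (⌊Y ^ σ⌋₊ : ℝ) ≤ Real.log Y := by
      apply Real.log_le_log (by exact_mod_cast hfl1)
      refine hfl.trans ?_
      calc Y ^ σ ≤ Y ^ (1 : ℝ) := Real.rpow_le_rpow_of_exponent_le hY1 hσ1.le
        _ = Y := Real.rpow_one _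
    linarith
  have hsum : ∑ D ∈ Icc 1 ⌊Y ^ σ⌋₊, f D = C * A * Y ^ (ρ / 4) * (Y ^ (1 - ρ) * ∑ D ∈ Icc 1 ⌊Y ^ σ⌋₊, 1 / (D : ℝ) + ⌊Y ^ σ⌋₊) := by
    rw [hf, ← Finset.mul_sum, Finset.sum_add_distrib, ← Finset.mul_sum, Finset.sum_const, Nat.card_Icc, Nat.add_sub_cancel,
      nsmul_eq_mul, mul_one]
  rw [hsum]
  have hσρ : Y ^ σ ≤ Y ^ (1 - ρ) := Real.rpow_le_rpow_of_exponent_le hY1 (by linarith)
  calc C * A * Y ^ (ρ / 4) * (Y ^ (1 - ρ) * ∑ D ∈ Icc 1 ⌊Y ^ σ⌋₊, 1 / (D : ℝ) + ⌊Y ^ σ⌋₊) ≤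
        C * A * Y ^ (ρ / 4) * (Y ^ (1 - ρ) * (1 + Real.log Y) + Y ^ (1 - ρ)) := by
        gcongr
        exact hfl.trans hσρ
    _ = Y ^ (ρ / 4) * Y ^ (1 - ρ) * (C * A * (2 + Real.log Y)) := by ring
    _ ≤ Y ^ (ρ / 4) * Y ^ (1 - ρ) * Y ^ (ρ / 2) := by gcongr
    _ = Y ^ (1 - ρ / 4) := by
        rw [← Real.rpow_add hY0, ← Real.rpow_add hY0]
        congr 1
        ring

end Pool.Agent.H996.SH
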